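import Mathlib
import Pool.Agent.Helper35.HC.StC
import Pool.Agent.Helper33.HSF.M_GCH

/-!
Project HC (MP_925021_gt), module GCX: graph charts of the flow over a given linear space, with `eH` and the
field `VF`.
-/

set_option autoImplicit false

namespace Helper60.HC

open Helper33.HSF Helper35.HC Helper35.HSF Helper35.PI Helper35.PI2 Helper32.CL Helper35.MS
open scoped ContDiff Manifold Topology ENNReal BigOperators
open MeasureTheory Set Filter

/-- reparametrisation as a graph, smooth at all points near the centre -/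
theorem C2s (n N : ℕ) (f : EE n × ℝ → EE N) (y₀ : EE n) (t₀ : ℝ)
    (L : EE n →ₗᵢ[ℝ] EE N) (hf : ContDiffAt ℝ ∞ f (y₀, t₀))
    (hfe : ∀ᶠ z in 𝓝 (y₀, t₀), ContDiffAt ℝ ∞ f z)
    (hLI : LI (fun y => f (y, t₀)) y₀)
    (hL : LinearMap.range L.toLinearMap
      = Submodule.span ℝ (range fun i => dv1 (fun y => f (y, t₀)) y₀ i)) :
    ∃ ψ : EE n × ℝ → EE n, ContDiffAt ℝ ∞ ψ (0, t₀) ∧ ψ (0, t₀) = y₀ ∧
      (∀ᶠ z in 𝓝 ((0 : EE n), t₀), ∀ v : EE n,
        (inner ℝ (f (ψ z, z.2) - f (y₀, t₀) - L z.1) (L v) : ℝ) = 0) ∧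
      ∀ᶠ z in 𝓝 ((0 : EE n), t₀), ContDiffAt ℝ ∞ ψ z := by
  have hn : (∞ : WithTop ℕ∞) ≠ 0 := by simp
  -- the adjoint of `L`
  obtain ⟨A, hA⟩ : ∃ A : EE N →L[ℝ] EE n, ∀ w v, inner ℝ (A w) v = inner ℝ w (L v) :=
    ⟨ContinuousLinearMap.adjoint L.toContinuousLinearMap, fun w v => by
      rw [ContinuousLinearMap.adjoint_inner_left]; rfl⟩
  have hAL : ∀ x, A (L x) = x := by
    intro x
    refine ext_inner_right ℝ fun v => ?_
    rw [hA, L.inner_map_map]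
  -- derivatives
  have hfd : HasFDerivAt f (fderiv ℝ f (y₀, t₀)) (y₀, t₀) := (hf.differentiableAt hn).hasFDerivAt
  set f' := fderiv ℝ f (y₀, t₀) with hf'
  have hdv : ∀ i : Fin n, dv1 (fun y => f (y, t₀)) y₀ i = f' (ee i, 0) := by
    intro i
    have h1 : HasFDerivAt (fun y : EE n => f (y, t₀)) (f'.comp (ContinuousLinearMap.inl ℝ (EE n) ℝ)) y₀ :=
      HasFDerivAt.comp y₀ hfd (hasFDerivAt_prodMk_left y₀ t₀)
    unfold dv1
    rw [h1.fderiv]
    rfl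
  have hsum : ∀ η : EE n, f' (η, 0) = ∑ i, η i • dv1 (fun y => f (y, t₀)) y₀ i := by
    intro η
    have h1 : η = ∑ i, η i • (ee i : EE n) := by
      have := (EuclideanSpace.basisFun (Fin n) ℝ).sum_repr η
      simp only [EuclideanSpace.basisFun_repr, EuclideanSpace.basisFun_apply] at this
      exact this.symm
    have h2 : f' (η, 0) = (f'.comp (ContinuousLinearMap.inl ℝ (EE n) ℝ)) η := rfl
    rw [h2]
    conv_lhs => rw [h1]
    rw [map_sum]
    refine Finset.sum_congr rfl fun i _ => ?_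
    rw [map_smul, hdv i]
    rfl
  -- the map to be inverted
  set Φ : EE n × ℝ → EE n × ℝ := fun z => (A (f z - f (y₀, t₀)), z.2) with hΦ
  set Φ' : EE n × ℝ →L[ℝ] EE n × ℝ := (A.comp f').prod (ContinuousLinearMap.snd ℝ (EE n) ℝ) with hΦ'
  have hΦd : HasFDerivAt Φ Φ' (y₀, t₀) := by
    refine HasFDerivAt.prodMk ?_ hasFDerivAt_snd
    exact A.hasFDerivAt.comp (y₀, t₀) (hfd.sub_const _)
  have hΦc : ContDiffAt ℝ ∞ Φ (y₀, t₀) := by
    refine ContDiffAt.prodMk ?_ contDiffAt_snd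
    exact A.contDiff.contDiffAt.comp (y₀, t₀) (hf.sub contDiffAt_const)
  have hinj : Function.Injective (Φ' : EE n × ℝ →ₗ[ℝ] EE n × ℝ) := by
    rw [← LinearMap.ker_eq_bot, LinearMap.ker_eq_bot']
    rintro ⟨η, s⟩ h
    have h1 : A (f' (η, s)) = 0 := congrArg Prod.fst h
    have h2 : s = 0 := congrArg Prod.snd h
    subst h2
    have h3 : f' (η, 0) ∈ LinearMap.range L.toLinearMap := by
      rw [hL, hsum η]
      exact Submodule.sum_mem _ fun i _ => Submodule.smul_mem _ _ (Submodule.subset_span ⟨i, rfl⟩)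
    obtain ⟨ξ, hξ⟩ := h3
    have h4 : f' (η, 0) = L ξ := hξ.symm
    rw [h4, hAL] at h1
    rw [h1, map_zero, hsum η] at h4
    have h5 := (Fintype.linearIndependent_iff.1 hLI) (fun i => η i) h4
    have h6 : η = 0 := by
      ext i
      exact h5 i
    rw [h6]
    rfl
  obtain ⟨e, he⟩ : ∃ e : (EE n × ℝ) ≃L[ℝ] (EE n × ℝ), (e : EE n × ℝ →L[ℝ] EE n × ℝ) = Φ' :=
    ⟨(LinearEquiv.ofInjectiveEndo (Φ' : EE n × ℝ →ₗ[ℝ] EE n × ℝ) hinj).toContinuousLinearEquiv,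
      ContinuousLinearMap.ext fun _ => rfl⟩
  rw [← he] at hΦd
  have hΦ0 : Φ (y₀, t₀) = (0, t₀) := by
    rw [hΦ]
    simp
  set g := hΦc.localInverse hΦd hn with hg
  have hgc : ContDiffAt ℝ ∞ g (0, t₀) := by
    have := hΦc.to_localInverse hΦd hn
    rw [hΦ0] at this
    exact this
  have hg0 : g (0, t₀) = (y₀, t₀) := by
    have := hΦc.localInverse_apply_image hΦd hn
    rw [hΦ0] at this
    exact this
  have hgr : ∀ᶠ z in 𝓝 ((0 : EE n), t₀), Φ (g z) = z := by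
    have := (hΦc.hasStrictFDerivAt' hΦd hn).eventually_right_inverse
    rw [hΦ0] at this
    exact this
  have hsm : ∀ᶠ z in 𝓝 ((0 : EE n), t₀), ContDiffAt ℝ ∞ g z := by
    set P := hΦc.toOpenPartialHomeomorph Φ hΦd hn with hP
    have hPc : (P : EE n × ℝ → EE n × ℝ) = Φ := rfl
    have hgP : g = P.symm := rfl
    have htar : ((0 : EE n), t₀) ∈ P.target := by
      have := hΦc.image_mem_toOpenPartialHomeomorph_target hΦd hn
      rw [hΦ0] at this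
      exact this
    have h1 : ∀ᶠ z in 𝓝 ((0 : EE n), t₀), z ∈ P.target := P.open_target.mem_nhds htar
    have hgt : Tendsto g (𝓝 ((0 : EE n), t₀)) (𝓝 (y₀, t₀)) := by
      have := hgc.continuousAt.tendsto
      rw [hg0] at this
      exact this
    have h2 := hgt.eventually hfe
    have hfdc : ContinuousAt (fderiv ℝ Φ) (y₀, t₀) :=
      (hΦc.fderiv_right (m := 0) (by simp)).continuousAt
    have h3 : ∀ᶠ z in 𝓝 (y₀, t₀), fderiv ℝ Φ z ∈
        range ((↑) : ((EE n × ℝ) ≃L[ℝ] (EE n × ℝ)) → (EE n × ℝ →L[ℝ] EE n × ℝ)) := by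
      apply hfdc.eventually_mem
      rw [hΦd.fderiv]
      exact ContinuousLinearEquiv.nhds e
    have h4 := hgt.eventually h3
    filter_upwards [h1, h2, h4] with z a1 a2 a3
    obtain ⟨e', he'⟩ := a3
    have hΦz : ContDiffAt ℝ ∞ Φ (g z) := by
      refine ContDiffAt.prodMk ?_ contDiffAt_snd
      exact A.contDiff.contDiffAt.comp (g z) (a2.sub contDiffAt_const)
    have h5 : HasFDerivAt Φ (e' : EE n × ℝ →L[ℝ] EE n × ℝ) (g z) := by
      rw [he']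
      exact (hΦz.differentiableAt hn).hasFDerivAt
    exact P.contDiffAt_symm a1 h5 hΦz
  refine ⟨fun z => (g z).1, contDiffAt_fst.comp (0, t₀) hgc, congrArg Prod.fst hg0, ?_, ?_⟩
  · filter_upwards [hgr] with z hz v
    have hz' : (A (f (g z) - f (y₀, t₀)), (g z).2) = z := hz
    obtain ⟨h1, h2⟩ := Prod.ext_iff.1 hz'
    have h1 : A (f (g z) - f (y₀, t₀)) = z.1 := h1
    have h2 : (g z).2 = z.2 := h2
    have h3 : ((g z).1, z.2) = g z := by rw [← h2]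
    rw [h3, inner_sub_left, ← hA, h1, L.inner_map_map, sub_self]
  · filter_upwards [hsm] with z hz
    exact contDiffAt_fst.comp z hz

theorem hGCX (hSM : Helper35.PI.StSM) (_hI1 : StI1) (hI2 : StI2J) (hI3 : StI3J)
    (hC3 : StC3) (hMT : StMT) (hG0 : StG0) (hG1 : StG1) (hG2 : StG2) (hNR : StNR)
    (hHSI : StHSI) (hHSM : StHSM) (hIB : StIB) (hMAJ : StMAJ) : StGCX := by
  intro n N M _ _ _ J F hF p₀ t₀ ht₀ L hL
  set e := chartAt (EE n) p₀ with he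
  set f : EE n × ℝ → EE N := fun z => F (e.symm z.1) z.2 with hf
  set y₀ : EE n := e p₀ with hy₀
  have hsm := hI2 n N M J F hF.toIsImmJ p₀
  have hopen : IsOpen (e.target ×ˢ J) := e.open_target.prod hF.op
  have hy₀t : y₀ ∈ e.target := e.map_source (mem_chart_source (EE n) p₀)
  have hp₀ : e.symm y₀ = p₀ := e.left_inv (mem_chart_source (EE n) p₀)
  have hmem : (y₀, t₀) ∈ e.target ×ˢ J := ⟨hy₀t, ht₀⟩
  have hfat : ∀ z ∈ e.target ×ˢ J, ContDiffAt ℝ ∞ f z := fun z hz =>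
    (hsm z hz).contDiffAt (hopen.mem_nhds hz)
  have hLI : LI (fun y => f (y, t₀)) y₀ := hF.imm p₀ t₀ ht₀
  obtain ⟨ψ, hψs, hψ0, hψe, hψi⟩ := C2s n N f y₀ t₀ L (hfat _ hmem)
    (by filter_upwards [hopen.mem_nhds hmem] with z hz using hfat z hz) hLI hL
  have hpde : ∀ᶠ z in 𝓝 (y₀, t₀), jt f z = mcv (fun y => f (y, z.2)) z.1 := by
    filter_upwards [hopen.mem_nhds hmem] with z hz
    have h1 : HasDerivAt (fun τ => F (e.symm z.1) τ) (HH (n := n) F (e.symm z.1) z.2) z.2 :=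
      hF.flow _ _ hz.2
    have h4 : HasDerivAt (fun τ : ℝ => f (z.1, τ)) (jt f (z.1, z.2)) z.2 :=
      slT f z.1 z.2 ((hfat z hz).differentiableAt (by simp))
    have h5 : jt f z = HH (n := n) F (e.symm z.1) z.2 := h4.unique h1
    have h6 := (hI3 n N M J F hF.toIsImmJ p₀ (e.symm z.1) z.2 hz.2 (e.map_target hz.1)).2.1
    rw [h5, h6]
    have h7 : (chartAt (EE n) p₀) (e.symm z.1) = z.1 := e.right_inv hz.1
    rw [h7]
    rfl
  obtain ⟨hG, hev⟩ := hC3 n N f y₀ t₀ L ψ (hfat _ hmem) hLI hL hpde hψs hψ0 hψe _ rfl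
  have hMT1 : jt ψ (0, t₀) = 0 :=
    (hMT n N f y₀ t₀ L ψ (hfat _ hmem) hLI hL hpde hψs hψ0 hψe).1
  have hfy : f (y₀, t₀) = F p₀ t₀ := by
    simp only [hf]
    rw [hp₀]
  simp only [hfy] at hG hev
  set u : EE n × ℝ → EE N := fun z => f (ψ z, z.2) - F p₀ t₀ - L z.1 with hu
  have hgr : ∀ (t : ℝ) (x : EE n), grf (F p₀ t₀) L u t x = loc (n := n) F p₀ t (ψ (x, t)) := by
    intro t x
    show F p₀ t₀ + L x + (f (ψ (x, t), t) - F p₀ t₀ - L x) = f (ψ (x, t), t)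
    abel
  have hψc : ContinuousAt ψ ((0 : EE n), t₀) := hψs.continuousAt
  have h8 : ∀ᶠ z in 𝓝 ((0 : EE n), t₀), ψ z ∈ e.target := by
    apply hψc.eventually
    rw [hψ0]; exact e.open_target.mem_nhds hy₀t
  have h9 : ∀ᶠ z in 𝓝 ((0 : EE n), t₀), z.2 ∈ J := by
    have : ContinuousAt (fun z : EE n × ℝ => z.2) ((0 : EE n), t₀) := continuousAt_snd
    exact this.eventually (hF.op.mem_nhds ht₀)
  have hψ2 : ∀ᶠ z in 𝓝 ((0 : EE n), t₀), ContDiffAt ℝ 2 ψ z := by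
    have h1 : ContDiffAt ℝ 2 ψ ((0 : EE n), t₀) := hψs.of_le two_le_top
    exact h1.eventually (by simp)
  -- the hypotheses for the reparametrisation
  have hkey : ∀ᶠ z in 𝓝 ((0 : EE n), t₀), ψ z ∈ e.target ∧ z.2 ∈ J ∧
      ContDiffAt ℝ 2 (loc (n := n) F p₀ z.2) (ψ z) ∧
      ContDiffAt ℝ 2 (fun x : EE n => ψ (x, z.2)) z.1 ∧
      LI (grf (F p₀ t₀) L u z.2) z.1 := by
    filter_upwards [h8, h9, hψ2, hG2 n N (F p₀ t₀) L u t₀ hG] with z a1 a2 a3 a4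
    refine ⟨a1, a2, (locSmooth hI2 hF.toIsImmJ a2 p₀ _ a1).of_le two_le_top, ?_, a4.2.2.2.2⟩
    have h1 : ContDiffAt ℝ 2 (fun y : EE n => ((y, z.2) : EE n × ℝ)) z.1 :=
      contDiffAt_id.prodMk contDiffAt_const
    exact ContDiffAt.comp (f := fun y : EE n => ((y, z.2) : EE n × ℝ)) (g := ψ) z.1 a3 h1
  have hgrE : ∀ z : EE n × ℝ, grf (F p₀ t₀) L u z.2 =ᶠ[𝓝 z.1]
      (fun y => loc (n := n) F p₀ z.2 ((fun x : EE n => ψ (x, z.2)) y)) := fun z =>
    Eventually.of_forall fun x => hgr z.2 x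
  have hsff := graph_sff hNR hG1 hG2 hG
  -- general transfer of a smooth function
  have hjt : ∀ {V : Type} [NormedAddCommGroup V] [NormedSpace ℝ V] (φ : M → ℝ → V),
      ContMDiffOn ((𝓡 n).prod 𝓘(ℝ, ℝ)) 𝓘(ℝ, V) ∞ (fun z : M × ℝ => φ z.1 z.2) (univ ×ˢ J) →
      ContDiffAt ℝ ∞ (fun z : EE n × ℝ => φ (e.symm (ψ z)) z.2) (0, t₀) ∧
      jt (fun z : EE n × ℝ => φ (e.symm (ψ z)) z.2) (0, t₀)
        = deriv (fun s => φ p₀ s) t₀ := by
    intro V _ _ φ hφ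
    have hs : ContDiffAt ℝ ∞ (fun z : EE n × ℝ => φ (e.symm z.1) z.2) (y₀, t₀) :=
      (cdChart J φ hφ p₀ _ hmem).contDiffAt (hopen.mem_nhds hmem)
    have hs' : ContDiffAt ℝ ∞ (fun z : EE n × ℝ => φ (e.symm z.1) z.2)
        ((fun z : EE n × ℝ => (ψ z, z.2)) (0, t₀)) := by
      simp only [hψ0]
      exact hs
    have hg : ContDiffAt ℝ ∞ (fun z : EE n × ℝ => (ψ z, z.2)) (0, t₀) :=
      hψs.prodMk contDiffAt_snd
    refine ⟨ContDiffAt.comp (f := fun z : EE n × ℝ => (ψ z, z.2))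
      (g := fun z : EE n × ℝ => φ (e.symm z.1) z.2) _ hs' hg, ?_⟩
    have h1 : HasFDerivAt (fun z : EE n × ℝ => φ (e.symm z.1) z.2)
        (fderiv ℝ (fun z : EE n × ℝ => φ (e.symm z.1) z.2) (y₀, t₀))
        ((fun z : EE n × ℝ => (ψ z, z.2)) (0, t₀)) := by
      simp only [hψ0]
      exact (hs.differentiableAt (by simp)).hasFDerivAt
    have h2 : HasFDerivAt (fun z : EE n × ℝ => (ψ z, z.2))
        ((fderiv ℝ ψ (0, t₀)).prod (ContinuousLinearMap.snd ℝ (EE n) ℝ)) (0, t₀) :=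
      ((hψs.differentiableAt (by simp)).hasFDerivAt).prodMk hasFDerivAt_snd
    have h3 := (h1.comp ((0 : EE n), t₀) h2).fderiv
    have h4 : jt (fun z : EE n × ℝ => φ (e.symm (ψ z)) z.2) (0, t₀)
        = fderiv ℝ (fun z : EE n × ℝ => φ (e.symm z.1) z.2) (y₀, t₀)
          (fderiv ℝ ψ (0, t₀) (0, 1), 1) := by
      show fderiv ℝ ((fun z : EE n × ℝ => φ (e.symm z.1) z.2) ∘
        (fun z : EE n × ℝ => (ψ z, z.2))) (0, t₀) (0, 1) = _
      rw [h3]
      rfl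
    have h5 : fderiv ℝ ψ (0, t₀) (0, 1) = 0 := hMT1
    rw [h4, h5]
    have h6 := slT (fun z : EE n × ℝ => φ (e.symm z.1) z.2) y₀ t₀
      (hs.differentiableAt (by simp))
    simp only [hp₀] at h6
    exact h6.deriv.symm
  refine ⟨u, fun z => e.symm (ψ z), ?_, ?_, ?_, ?_⟩
  · refine ⟨hG, hL, ?_, ?_, ?_, ?_, ?_, ?_, ?_⟩
    · show e.symm (ψ (0, t₀)) = p₀
      rw [hψ0, hp₀]
    · have : ContinuousAt e.symm (ψ (0, t₀)) := by
        rw [hψ0]; exact e.continuousAt_symm hy₀t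
      exact ContinuousAt.comp (f := ψ) this hψc
    · exact Eventually.of_forall fun z => (hgr z.2 z.1).symm
    · filter_upwards [hev, h8, h9] with z hz hz1 hz2
      obtain ⟨a1, a2, a3, a4⟩ := hz
      have hs : e.symm (ψ z) ∈ e.source := e.map_target hz1
      obtain ⟨-, b2, b3, b4, -⟩ := hI3 n N M J F hF.toIsImmJ p₀ (e.symm (ψ z)) z.2 hz2 hs
      have h7 : (chartAt (EE n) p₀) (e.symm (ψ z)) = ψ z := e.right_inv hz1
      rw [h7] at b2 b3 b4
      exact ⟨b2.trans a2.symm, b3.trans a3.symm, b4.trans a4.symm⟩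
    · filter_upwards [hkey] with z hz
      obtain ⟨a1, a2, a3, a4, a5⟩ := hz
      have hs : e.symm (ψ z) ∈ e.source := e.map_target a1
      obtain ⟨-, -, -, -, b5⟩ := hI3 n N M J F hF.toIsImmJ p₀ (e.symm (ψ z)) z.2 a2 hs
      have h7 : (chartAt (EE n) p₀) (e.symm (ψ z)) = ψ z := e.right_inv a1
      rw [h7] at b5
      rw [b5]
      exact (_hI1 n N (loc (n := n) F p₀ z.2) (grf (F p₀ t₀) L u z.2)
        (fun x : EE n => ψ (x, z.2)) z.1 a3 a4 (hgrE z) a5).2.2.2.2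
    · filter_upwards [hkey] with z hz U
      obtain ⟨a1, a2, a3, a4, a5⟩ := hz
      have hs : e.symm (ψ z) ∈ e.source := e.map_target a1
      have h7 : (chartAt (EE n) p₀) (e.symm (ψ z)) = ψ z := e.right_inv a1
      obtain ⟨c, c1, c2⟩ := rpU hNR (loc (n := n) F p₀ z.2) (grf (F p₀ t₀) L u z.2)
        (fun x : EE n => ψ (x, z.2)) z.1 a3 a4 (hgrE z) a5 U
      obtain ⟨c', d1, d2⟩ := fs_chart hNR hI2 hF.toIsImmJ a2 p₀ (e.symm (ψ z)) hs c
      rw [h7] at d1 d2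
      exact ⟨c', d1.trans c1, d2.trans c2⟩
    · intro c
      obtain ⟨a1, a2, a3, a4, a5⟩ := hkey.self_of_nhds
      obtain ⟨U, d1, d2⟩ := rpC hNR (loc (n := n) F p₀ t₀) (grf (F p₀ t₀) L u t₀)
        (fun x : EE n => ψ (x, t₀)) 0 a3 a4 (hgrE (0, t₀)) a5 c
      simp only [hψ0] at d1 d2
      refine ⟨U, ?_, ?_⟩
      · have h1 : tv F p₀ t₀ c = ∑ i, c i • dv1 (loc (n := n) F p₀ t₀) y₀ i := rfl
        rw [h1, ← d1]
        exact Finset.sum_congr rfl fun i _ => by rw [hsff.1]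
      · have h1 : An F p₀ t₀ c
            = ∑ i, ∑ j, (c i * c j) • sff (loc (n := n) F p₀ t₀) y₀ i j := rfl
        rw [h1, ← d2]
        exact Finset.sum_congr rfl fun i _ => Finset.sum_congr rfl fun j _ => by rw [hsff.2]
  · intro φ hφ
    obtain ⟨t1, t2⟩ := hjt φ hφ
    obtain ⟨l1, l2⟩ := graph_lap hSM hG0 hG1 hG2 hG
      (fun z : EE n × ℝ => φ (e.symm (ψ z)) z.2) t1
    set gs : EE n → ℝ := fun y => φ (e.symm y) t₀ with hgs
    have hgsd : ∀ y ∈ e.target, ContDiffAt ℝ ∞ gs y := by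
      intro y hy
      have h1 : ContDiffAt ℝ ∞ (fun z : EE n × ℝ => φ (e.symm z.1) z.2) (y, t₀) :=
        (cdChart J φ hφ p₀ _ ⟨hy, ht₀⟩).contDiffAt (hopen.mem_nhds ⟨hy, ht₀⟩)
      exact ContDiffAt.comp (f := fun y : EE n => ((y, t₀) : EE n × ℝ))
        (g := fun z : EE n × ℝ => φ (e.symm z.1) z.2) y h1
        (contDiffAt_id.prodMk contDiffAt_const)
    have hg1 : ∀ y ∈ e.target, gdM n F t₀ (fun q => φ q t₀) (e.symm y)
        = grc (loc (n := n) F p₀ t₀) gs y := by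
      intro y hy
      have h7 : (chartAt (EE n) p₀) (e.symm y) = y := e.right_inv hy
      have := gdM_chart hNR hI2 hF.toIsImmJ ht₀ p₀ (e.symm y) (e.map_target hy)
        (fun q => φ q t₀) (by rw [h7]; exact (hgsd y hy).differentiableAt (by simp))
      rw [h7] at this
      exact this
    have hct : Tendsto (fun x : EE n => ((x, t₀) : EE n × ℝ)) (𝓝 0) (𝓝 (0, t₀)) :=
      (continuous_id.prodMk continuous_const).tendsto _
    have hg2 : grc (grf (F p₀ t₀) L u t₀) (fun x => φ (e.symm (ψ (x, t₀))) t₀)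
        =ᶠ[𝓝 0] fun x => grc (loc (n := n) F p₀ t₀) gs ((fun x : EE n => ψ (x, t₀)) x) := by
      filter_upwards [hct.eventually hkey] with x hx
      obtain ⟨a1, a2, a3, a4, a5⟩ := hx
      exact grc_inv hNR (loc (n := n) F p₀ t₀) (grf (F p₀ t₀) L u t₀)
        (fun x : EE n => ψ (x, t₀)) x gs (fun x => φ (e.symm (ψ (x, t₀))) t₀) a3 a4
        (hgrE (x, t₀)) a5 ((hgsd _ a1).differentiableAt (by simp))
        (Eventually.of_forall fun _ => rfl)
    obtain ⟨a1, a2, a3, a4, a5⟩ := hkey.self_of_nhds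
    have hLIp : LI (loc (n := n) F p₀ t₀) y₀ := hLI
    have hgrcd : DifferentiableAt ℝ (grc (loc (n := n) F p₀ t₀) gs) y₀ :=
      (grc_smooth hSM _ _ y₀ (locSmooth hI2 hF.toIsImmJ ht₀ p₀ y₀ hy₀t)
        (hgsd y₀ hy₀t) hLIp).differentiableAt (by simp)
    have hdv := dvc_inv hNR (loc (n := n) F p₀ t₀) (grf (F p₀ t₀) L u t₀)
      (fun x : EE n => ψ (x, t₀)) 0 (grc (loc (n := n) F p₀ t₀) gs)
      (grc (grf (F p₀ t₀) L u t₀) (fun x => φ (e.symm (ψ (x, t₀))) t₀)) a3 a4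
      (hgrE (0, t₀)) a5 (by simp only [hψ0]; exact hgrcd) hg2
    simp only [hψ0] at hdv
    have hlap : lapN n F φ p₀ t₀ = dvc (loc (n := n) F p₀ t₀)
        (grc (loc (n := n) F p₀ t₀) gs) y₀ := by
      have he1 : (fun y => gdM n F t₀ (fun q => φ q t₀) (e.symm y)) =ᶠ[𝓝 y₀]
          grc (loc (n := n) F p₀ t₀) gs := by
        filter_upwards [e.open_target.mem_nhds hy₀t] with y hy
        exact hg1 y hy
      show ∑ i, ∑ j, (gram (loc (n := n) F p₀ t₀) y₀)⁻¹ i j *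
        (inner ℝ (fderiv ℝ (fun y => gdM n F t₀ (fun q => φ q t₀) (e.symm y)) y₀ (ee i))
          (dv1 (loc (n := n) F p₀ t₀) y₀ j) : ℝ) = _
      rw [he1.fderiv_eq]
      rfl
    refine ⟨t1, t2, ?_, ?_⟩
    · unfold jh htN
      rw [t2, hlap, ← hdv, ← l2]
    · have h1 := hg1 y₀ hy₀t
      rw [hp₀] at h1
      rw [h1, ← l1]
      have h2 := hg2.self_of_nhds
      simp only [hψ0] at h2
      exact h2.symm
  · filter_upwards [hkey, hψi] with z hz hz2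
    obtain ⟨a1, a2, -, -, a5⟩ := hz
    have h1 : ContDiffAt ℝ ∞ (fun y : EE n => ((y, z.2) : EE n × ℝ)) z.1 :=
      contDiffAt_id.prodMk contDiffAt_const
    have h2 : ContDiffAt ℝ ∞ (fun x : EE n => ψ (x, z.2)) z.1 :=
      ContDiffAt.comp (f := fun y : EE n => ((y, z.2) : EE n × ℝ)) (g := ψ) z.1 hz2 h1
    have h3 := (hHSI n N (loc (n := n) F p₀ z.2) (grf (F p₀ t₀) L u z.2)
      (fun x : EE n => ψ (x, z.2)) z.1 (locSmooth hI2 hF.toIsImmJ a2 p₀ _ a1) h2 (hgrE z) a5).1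
    have hs : e.symm (ψ z) ∈ e.source := e.map_target a1
    have h4 := (hHSM n N M J F hF.toIsImmJ).2.2 p₀ (e.symm (ψ z)) z.2 a2 hs
    have h7 : (chartAt (EE n) p₀) (e.symm (ψ z)) = ψ z := e.right_inv a1
    rw [h7] at h4
    show eH n F (e.symm (ψ z)) z.2 = _
    rw [h4, h3]
  · obtain ⟨a1, a2, a3, a4, a5⟩ := hkey.self_of_nhds
    have h1 : ContDiffAt ℝ ∞ (fun y : EE n => ((y, t₀) : EE n × ℝ)) 0 :=
      contDiffAt_id.prodMk contDiffAt_const
    have h2 : ContDiffAt ℝ ∞ (fun x : EE n => ψ (x, t₀)) 0 :=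
      ContDiffAt.comp (f := fun y : EE n => ((y, t₀) : EE n × ℝ)) (g := ψ) 0 hψs h1
    have h3 : ContDiffAt ℝ ∞ (loc (n := n) F p₀ t₀) ((fun x : EE n => ψ (x, t₀)) 0) := by
      simp only [hψ0]
      exact locSmooth hI2 hF.toIsImmJ ht₀ p₀ y₀ hy₀t
    obtain ⟨i1, i2⟩ := hIB n N (loc (n := n) F p₀ t₀) (grf (F p₀ t₀) L u t₀)
      (fun x : EE n => ψ (x, t₀)) 0 h3 h2 (hgrE (0, t₀)) a5 1
    simp only [hψ0] at i1 i2
    refine ⟨i1, ?_⟩
    rw [i2]
    exact ((hMAJ n N M J F hF.toIsImmJ 1 t₀ ht₀).2.2.2 p₀).symm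

end Helper60.HC
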